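import Pool.Agent.Lib.MP_41f445_an.Transfer

/-!
# A separable unital C*-algebra `A` and a separable McDuff `II_1` factor `M` such that
`Hom_w(A, M)` is nonempty and has no extreme point

All notions are defined in `Pool.Agent.Lib.MP_41f445_an.Stmt`.
-/

namespace Pool.Agent.Results.MP_41f445_an.NoExtremePoint

open Pool.Agent.Lib.MP_41f445_an

/-- **Negative answer to Q1.** There are a separable unital C*-algebra `A` and a separable McDuff
`II_1` factor `M` (on the Hilbert space `H`, in standard form, with trace vector `Ω`) such that
there are unital *-homomorphisms `A → M`, but, for every admissible isomorphism `σ : M ⊗ R → M`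
(and there are such isomorphisms), no unital *-homomorphism `π : A → M` represents an extreme
point of `Hom_w(A, M)`. -/
theorem result :
    ∃ (A : Type) (_ : CStarAlgebra A) (H : Type) (_ : NormedAddCommGroup H)
      (_ : InnerProductSpace ℂ H) (_ : CompleteSpace H) (M : VonNeumannAlgebra H) (Ω : H),
      St.NoExtreme A M Ω := by
  obtain ⟨A, iA, h⟩ := main_st
  exact ⟨A, iA, HS, inferInstance, inferInstance, inferInstance, Mdl, Om, h⟩

end Pool.Agent.Results.MP_41f445_an.NoExtremePoint
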